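import Mathlib

/-!
K_GS, part a: sums of products over the nonnegative integers
-/

set_option autoImplicit false

open scoped ENNReal

namespace Pool.Agent.H59.BH

theorem tsum_fin_prod (n : ℕ) (g : Fin n → ℕ → ℝ≥0∞) :
    ∑' j : Fin n → ℕ, ∏ i, g i (j i) = ∏ i, ∑' m : ℕ, g i m := by
  induction n with
  | zero => simp
  | succ n ih =>
    rw [← (Fin.consEquiv (fun _ : Fin (n + 1) => ℕ)).tsum_eq, ENNReal.tsum_prod', Fin.prod_univ_succ]
    have h : ∀ a : ℕ, ∑' b : Fin n → ℕ, ∏ i, g i ((Fin.consEquiv (fun _ : Fin (n + 1) => ℕ)) (a, b) i)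
        = g 0 a * ∏ i : Fin n, ∑' m : ℕ, g i.succ m := by
      intro a
      rw [← ih, ← ENNReal.tsum_mul_left]
      refine tsum_congr fun b => ?_
      rw [Fin.prod_univ_succ]
      simp [Fin.consEquiv]
    rw [tsum_congr h, ENNReal.tsum_mul_right]

theorem tsum_pi_prod {ι : Type} [Fintype ι] (g : ι → ℕ → ℝ≥0∞) :
    ∑' j : ι → ℕ, ∏ i, g i (j i) = ∏ i, ∑' m : ℕ, g i m := by
  classical
  have e := Fintype.equivFin ι
  rw [← (Equiv.arrowCongr e (Equiv.refl ℕ)).symm.tsum_eq, ← e.symm.prod_comp,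
    ← tsum_fin_prod _ (fun i => g (e.symm i))]
  refine tsum_congr fun j => ?_
  rw [← e.symm.prod_comp]
  simp

theorem factor_le (κ x : ℝ) (e : ℕ) (_hκ : 0 ≤ κ) (hκ1 : κ < 1) (hx : 0 < x) (hx1 : x ≤ 1)
    (he : 1 ≤ e) (he2 : e ≤ 2) :
    x ^ e * ((x / 2) ^ e) ^ (-κ) ≤ 4 * x ^ (1 - κ) := by
  have h1 : ((x / 2) ^ e) ^ (-κ) = x ^ (-(κ * e)) * (2 : ℝ) ^ (κ * e) := by
    rw [← Real.rpow_natCast (x / 2) e, ← Real.rpow_mul (by positivity), Real.div_rpow hx.le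
      (by norm_num), div_eq_mul_inv, ← Real.rpow_neg (by norm_num)]
    congr 2 <;> ring
  have h2 : x ^ e * x ^ (-(κ * e)) = x ^ (e * (1 - κ)) := by
    rw [← Real.rpow_natCast x e, ← Real.rpow_add hx]
    congr 1
    ring
  have h3 : x ^ ((e : ℝ) * (1 - κ)) ≤ x ^ (1 - κ) := by
    refine Real.rpow_le_rpow_of_exponent_ge hx hx1 ?_
    have : (1 : ℝ) ≤ e := by exact_mod_cast he
    nlinarith
  have h4 : (2 : ℝ) ^ (κ * e) ≤ 4 := by
    have : (2 : ℝ) ^ (κ * e) ≤ (2 : ℝ) ^ (2 : ℝ) := by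
      refine Real.rpow_le_rpow_of_exponent_le (by norm_num) ?_
      have : (e : ℝ) ≤ 2 := by exact_mod_cast he2
      have h0 : (0 : ℝ) ≤ e := by positivity
      nlinarith
    norm_num at this
    linarith
  rw [h1, ← mul_assoc, h2, mul_comm]
  exact mul_le_mul h4 h3 (by positivity) (by norm_num)

theorem geo (ρ : ℝ) (h0 : 0 ≤ ρ) (h1 : ρ < 1) :
    ∑' m : ℕ, ENNReal.ofReal (4 * ρ ^ m) = ENNReal.ofReal (4 / (1 - ρ)) := by
  rw [← ENNReal.ofReal_tsum_of_nonneg (fun m => by positivity)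
    ((summable_geometric_of_lt_one h0 h1).mul_left 4), tsum_mul_left,
    tsum_geometric_of_lt_one h0 h1, div_eq_mul_inv]

theorem tsum_ite_set {α : Type} (S : Set α) (hS : S.Finite) (c : ℝ≥0∞)
    [DecidablePred (· ∈ S)] :
    ∑' h : α, (if h ∈ S then c else 0) = (S.ncard : ℝ≥0∞) * c := by
  classical
  rw [tsum_eq_sum (s := hS.toFinset) (fun b hb => by
    rw [if_neg]
    simpa using hb), Finset.sum_congr rfl (fun b hb => if_pos ((hS.mem_toFinset).1 hb)),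
    Finset.sum_const, nsmul_eq_mul, Set.ncard_eq_toFinset_card S hS]

end Pool.Agent.H59.BH
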