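import Pool.Agent.H29.BH.Targets1
import Pool.Agent.H92.RC.ID
import Pool.Agent.H59.BH.GSa

/-!
K_GS: the weighted sum over the lattice points in a box
-/

set_option autoImplicit false

open NumberField NumberField.InfinitePlace NumberField.Units
  NumberField.Units.dirichletUnitTheorem MeasureTheory Set Filter Complex
open scoped nonZeroDivisors ENNReal

namespace Pool.Agent.H59.BH

open Pool.Agent.H25.HK Pool.Agent.H23.LB Pool.Agent.H23.LC Pool.Agent.H29.DW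
open Pool.Agent.H28.RC (Rep ft idl)
open Pool.Agent.H29.TC (dvs cq LC Gn MC)
open Pool.Agent.H29.BH

section

variable {K : Type} [Field K] [NumberField K]

theorem mem_mul_of (L : FI K) (hL : L ≠ 0) (e : Ideal (𝓞 K)) {h : K} (hh : h ∈ L)
    (he : idl K L h ≤ e) : h ∈ (e : FI K) * L := by
  have h1 := Pool.Agent.H92.RC.idl_mul L hL hh
  have h2 : (idl K L h : FI K) * L ≤ (e : FI K) * L :=
    mul_le_mul_left (FractionalIdeal.coeIdeal_le_coeIdeal K |>.2 he) L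
  rw [h1] at h2
  exact FractionalIdeal.spanSingleton_le_iff_mem.1 h2

theorem card_places (n : ℕ) (hn : Module.finrank ℚ K = n) :
    Fintype.card (InfinitePlace K) ≤ n := by
  rw [← hn, ← InfinitePlace.sum_mult_eq, ← Finset.card_univ, Finset.card_eq_sum_ones]
  exact Finset.sum_le_sum fun v _ => mult_pos

omit [NumberField K] in
theorem mult_le_two (v : InfinitePlace K) : v.mult ≤ 2 := by
  unfold InfinitePlace.mult
  split_ifs <;> norm_num

open scoped Classical in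
theorem base (n : ℕ) (κ C : ℝ) (hκ : 0 ≤ κ) (hκ1 : κ < 1) (hC : 1 ≤ C)
    (hn : Module.finrank ℚ K = n) (L : FI K) (y : InfinitePlace K → ℝ) (hbt : 0 < bt L y)
    (hNB : ∀ R : InfinitePlace K → ℝ, (∀ v, 0 ≤ R v) →
      {h : K | h ∈ L ∧ h ≠ 0 ∧ ∀ v, ‖sy y h v‖ ≤ R v}.Finite ∧
      ({h : K | h ∈ L ∧ h ≠ 0 ∧ ∀ v, ‖sy y h v‖ ≤ R v}.ncard : ℝ) ≤
        C * (∏ v, R v ^ v.mult) * bt L y) :
    ∑' h : K, (if h ∈ L ∧ h ≠ 0 ∧ ∀ v, ‖sy y h v‖ ≤ 1 then
      ENNReal.ofReal (nv y h ^ (-κ)) else 0) ≤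
      ENNReal.ofReal (C * (4 / (1 - (1 / 2 : ℝ) ^ (1 - κ))) ^ n * bt L y) := by
  set ρ : ℝ := (1 / 2 : ℝ) ^ (1 - κ) with hρ
  have hρ0 : 0 ≤ ρ := by positivity
  have hρ1 : ρ < 1 := Real.rpow_lt_one (by norm_num) (by norm_num) (by linarith)
  set W : (InfinitePlace K → ℕ) → ℝ := fun j =>
    ∏ v : InfinitePlace K, (((1 / 2 : ℝ) ^ (j v) / 2) ^ v.mult) ^ (-κ) with hW
  have hW0 : ∀ j, 0 ≤ W j := fun j => Finset.prod_nonneg fun v _ => by positivity
  set S : (InfinitePlace K → ℕ) → Set K := fun j =>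
    {h : K | h ∈ L ∧ h ≠ 0 ∧ ∀ v, ‖sy y h v‖ ≤ (1 / 2 : ℝ) ^ (j v)} with hS
  -- every point lies in a box
  have key : ∀ h : K, (if h ∈ L ∧ h ≠ 0 ∧ ∀ v, ‖sy y h v‖ ≤ 1 then
      ENNReal.ofReal (nv y h ^ (-κ)) else 0) ≤
      ∑' j : InfinitePlace K → ℕ, (if h ∈ S j then ENNReal.ofReal (W j) else 0) := by
    intro h
    by_cases hh : h ∈ L ∧ h ≠ 0 ∧ ∀ v, ‖sy y h v‖ ≤ 1
    · rw [if_pos hh]
      obtain ⟨hL, h0, h1⟩ := hh
      have hpos : ∀ v, 0 < ‖sy y h v‖ := by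
        intro v
        unfold sy
        rw [norm_pos_iff]
        refine mul_ne_zero ?_ ?_
        · exact (map_ne_zero _).2 h0
        · exact_mod_cast (Real.exp_pos _).ne'
      have h2 : ∀ v, ∃ m : ℕ, (1 / 2 : ℝ) ^ (m + 1) < ‖sy y h v‖ ∧ ‖sy y h v‖ ≤ (1 / 2 : ℝ) ^ m :=
        fun v => exists_nat_pow_near_of_lt_one (hpos v) (h1 v) (by norm_num) (by norm_num)
      choose j hj using h2
      have h3 : h ∈ S j := ⟨hL, h0, fun v => (hj v).2⟩
      refine le_trans ?_ (ENNReal.le_tsum j)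
      rw [if_pos h3]
      refine ENNReal.ofReal_le_ofReal ?_
      simp only [hW, nv]
      rw [← Real.finsetProd_rpow _ _ (fun v _ => by positivity)]
      refine Finset.prod_le_prod (fun v _ => by positivity) fun v _ => ?_
      refine Real.rpow_le_rpow_of_nonpos (by positivity) ?_ (by linarith)
      refine pow_le_pow_left₀ (by positivity) ?_ _
      have := (hj v).1.le
      rw [pow_succ] at this
      linarith
    · rw [if_neg hh]
      exact zero_le
  have hcount : ∀ j, ∑' h : K, (if h ∈ S j then ENNReal.ofReal (W j) else 0) ≤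
      ENNReal.ofReal (C * bt L y) * ∏ v : InfinitePlace K, ENNReal.ofReal (4 * ρ ^ (j v)) := by
    intro j
    obtain ⟨hfin, hcard⟩ := hNB (fun v => (1 / 2 : ℝ) ^ (j v)) (fun v => by positivity)
    have h4 : ∑' h : K, (if h ∈ S j then ENNReal.ofReal (W j) else 0) =
        ((S j).ncard : ℝ≥0∞) * ENNReal.ofReal (W j) := tsum_ite_set (S j) hfin _
    rw [h4, ← ENNReal.ofReal_natCast, ← ENNReal.ofReal_mul (Nat.cast_nonneg _),
      ← ENNReal.ofReal_prod_of_nonneg (fun v _ => by positivity),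
      ← ENNReal.ofReal_mul (by positivity)]
    refine ENNReal.ofReal_le_ofReal ?_
    calc ((S j).ncard : ℝ) * W j
        ≤ (C * (∏ v : InfinitePlace K, ((1 / 2 : ℝ) ^ (j v)) ^ v.mult) * bt L y) * W j :=
          mul_le_mul_of_nonneg_right hcard (hW0 j)
      _ = (C * bt L y) * ∏ v : InfinitePlace K, (((1 / 2 : ℝ) ^ (j v)) ^ v.mult *
            (((1 / 2 : ℝ) ^ (j v) / 2) ^ v.mult) ^ (-κ)) := by
          rw [Finset.prod_mul_distrib]
          simp only [hW]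
          ring
      _ ≤ (C * bt L y) * ∏ v : InfinitePlace K, (4 * ρ ^ (j v)) := by
          refine mul_le_mul_of_nonneg_left ?_ (by positivity)
          refine Finset.prod_le_prod (fun v _ => by positivity) fun v _ => ?_
          refine (factor_le κ _ v.mult hκ hκ1 (by positivity)
            (pow_le_one₀ (by norm_num) (by norm_num)) mult_pos (mult_le_two v)).trans
            (le_of_eq ?_)
          congr 1
          rw [hρ, ← Real.rpow_natCast, ← Real.rpow_natCast, ← Real.rpow_mul (by norm_num),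
            ← Real.rpow_mul (by norm_num)]
          congr 1
          ring
  have h5 : 1 ≤ 4 / (1 - ρ) := by
    rw [le_div_iff₀ (by linarith)]
    linarith
  calc ∑' h : K, (if h ∈ L ∧ h ≠ 0 ∧ ∀ v, ‖sy y h v‖ ≤ 1 then
      ENNReal.ofReal (nv y h ^ (-κ)) else 0)
      ≤ ∑' h : K, ∑' j : InfinitePlace K → ℕ, (if h ∈ S j then ENNReal.ofReal (W j) else 0) :=
        ENNReal.tsum_le_tsum key
    _ = ∑' j : InfinitePlace K → ℕ, ∑' h : K, (if h ∈ S j then ENNReal.ofReal (W j) else 0) :=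
        ENNReal.tsum_comm
    _ ≤ ∑' j : InfinitePlace K → ℕ, ENNReal.ofReal (C * bt L y) *
          ∏ v : InfinitePlace K, ENNReal.ofReal (4 * ρ ^ (j v)) := ENNReal.tsum_le_tsum hcount
    _ = ENNReal.ofReal (C * bt L y) * ∏ _v : InfinitePlace K, ENNReal.ofReal (4 / (1 - ρ)) := by
        rw [ENNReal.tsum_mul_left, tsum_pi_prod (fun _ m => ENNReal.ofReal (4 * ρ ^ m))]
        simp only [geo ρ hρ0 hρ1]
    _ ≤ ENNReal.ofReal (C * (4 / (1 - ρ)) ^ n * bt L y) := by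
        rw [Finset.prod_const, Finset.card_univ, ← ENNReal.ofReal_pow (by linarith),
          ← ENNReal.ofReal_mul (by positivity)]
        refine ENNReal.ofReal_le_ofReal ?_
        have h6 : (4 / (1 - ρ)) ^ Fintype.card (InfinitePlace K) ≤ (4 / (1 - ρ)) ^ n :=
          pow_le_pow_right₀ h5 (card_places n hn)
        have h7 : 0 ≤ C * bt L y := by positivity
        nlinarith [mul_le_mul_of_nonneg_left h6 h7]

end

theorem pf_K_GS (hNV : K_NV) (hNB : K_NB) (hDF : Pool.Agent.H29.TC.T_DF) : K_GS := by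
  classical
  intro n hn κ hκ hκ1
  obtain ⟨C, hC, hNB⟩ := hNB n hn
  have hρ1 : (1 / 2 : ℝ) ^ (1 - κ) < 1 := Real.rpow_lt_one (by norm_num) (by norm_num) (by linarith)
  have hρ0 : 0 ≤ (1 / 2 : ℝ) ^ (1 - κ) := by positivity
  have h5 : 1 ≤ 4 / (1 - (1 / 2 : ℝ) ^ (1 - κ)) := by
    rw [le_div_iff₀ (by linarith)]
    linarith
  have hC0 : 1 ≤ C * (4 / (1 - (1 / 2 : ℝ) ^ (1 - κ))) ^ n :=
    one_le_mul_of_one_le_of_one_le hC (one_le_pow₀ h5)
  refine ⟨C * (4 / (1 - (1 / 2 : ℝ) ^ (1 - κ))) ^ n, hC0, ?_⟩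
  intro K _ _ hK f L y hf hL
  generalize hCC : C * (4 / (1 - (1 / 2 : ℝ) ^ (1 - κ))) ^ n = C0 at hC0
  have hmem := hDF K f hf
  have hbot : ∀ e, f ≤ e → e ≠ ⊥ := fun e he h => hf (le_bot_iff.1 (h ▸ he))
  have hNf : ∀ e : Ideal (𝓞 K), e ≠ ⊥ → 1 ≤ Nf K e := by
    intro e he
    unfold Nf
    have : 0 < Ideal.absNorm e := Nat.pos_of_ne_zero fun h => he (Ideal.absNorm_eq_zero_iff.1 h)
    exact_mod_cast this
  have hb0 := (hNV K L y hL).1
  have hbase : ∀ e ∈ dvs K f, ∑' h : K, (if h ∈ (e : FI K) * L ∧ h ≠ 0 ∧ ∀ v, ‖sy y h v‖ ≤ 1 then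
      ENNReal.ofReal (nv y h ^ (-κ)) else 0) ≤ ENNReal.ofReal (C0 * (bt L y / Nf K e)) := by
    intro e he
    have heb : e ≠ ⊥ := hbot e ((hmem e).1 he)
    have heL : (e : FI K) * L ≠ 0 := by
      refine mul_ne_zero ?_ hL
      exact FractionalIdeal.coeIdeal_ne_zero.2 heb
    have h1 := base n κ C hκ hκ1 hC hK ((e : FI K) * L) y (hNV K _ y heL).1
      (fun R hR => hNB K hK ((e : FI K) * L) y R heL hR)
    rwa [hCC, ((hNV K L y hL).2.2.2.2.1 e heb).1] at h1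
  have hpt : ∀ h : K, (if h ∈ L ∧ h ≠ 0 ∧ ∀ v, ‖sy y h v‖ ≤ 1 then
      ENNReal.ofReal (wf K f L h * nv y h ^ (-κ)) else 0) ≤
      ∑ e ∈ dvs K f, ENNReal.ofReal (Nf K e) *
        (if h ∈ (e : FI K) * L ∧ h ≠ 0 ∧ ∀ v, ‖sy y h v‖ ≤ 1 then
          ENNReal.ofReal (nv y h ^ (-κ)) else 0) := by
    intro h
    by_cases hh : h ∈ L ∧ h ≠ 0 ∧ ∀ v, ‖sy y h v‖ ≤ 1
    · rw [if_pos hh]
      obtain ⟨hL', h0, h1⟩ := hh
      have he : f ⊔ idl K L h ∈ dvs K f := (hmem _).2 le_sup_left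
      have h2 : h ∈ ((f ⊔ idl K L h : Ideal (𝓞 K)) : FI K) * L :=
        mem_mul_of L hL _ hL' le_sup_right
      refine le_trans (le_of_eq ?_) (Finset.single_le_sum (fun _ _ => zero_le) he)
      rw [if_pos ⟨h2, h0, h1⟩]
      unfold wf
      rw [ENNReal.ofReal_mul]
      exact (by linarith [hNf _ (hbot _ (le_sup_left : f ≤ f ⊔ idl K L h))])
    · rw [if_neg hh]
      exact zero_le
  calc ∑' h : K, (if h ∈ L ∧ h ≠ 0 ∧ ∀ v, ‖sy y h v‖ ≤ 1 then
      ENNReal.ofReal (wf K f L h * nv y h ^ (-κ)) else 0)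
      ≤ ∑' h : K, ∑ e ∈ dvs K f, ENNReal.ofReal (Nf K e) *
        (if h ∈ (e : FI K) * L ∧ h ≠ 0 ∧ ∀ v, ‖sy y h v‖ ≤ 1 then
          ENNReal.ofReal (nv y h ^ (-κ)) else 0) := ENNReal.tsum_le_tsum hpt
    _ = ∑ e ∈ dvs K f, ENNReal.ofReal (Nf K e) * ∑' h : K,
        (if h ∈ (e : FI K) * L ∧ h ≠ 0 ∧ ∀ v, ‖sy y h v‖ ≤ 1 then
          ENNReal.ofReal (nv y h ^ (-κ)) else 0) := by
        rw [Summable.tsum_finsetSum (fun _ _ => ENNReal.summable)]
        exact Finset.sum_congr rfl fun e _ => ENNReal.tsum_mul_left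
    _ ≤ ∑ e ∈ dvs K f, ENNReal.ofReal (C0 * bt L y) := by
        refine Finset.sum_le_sum fun e he => ?_
        have h1 := hNf e (hbot e ((hmem e).1 he))
        refine (mul_le_mul_right (hbase e he) _).trans (le_of_eq ?_)
        rw [← ENNReal.ofReal_mul (by linarith)]
        congr 1
        field_simp
    _ = ENNReal.ofReal (C0 * (dvs K f).card * bt L y) := by
        rw [Finset.sum_const, nsmul_eq_mul, ← ENNReal.ofReal_natCast,
          ← ENNReal.ofReal_mul (Nat.cast_nonneg _)]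
        congr 1
        ring

end Pool.Agent.H59.BH
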